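import Mathlib

set_option autoImplicit false

namespace Pool.Agent.Results.MP_c73f8e_nt.Classify

open Finset

/-- every element is uniquely a sum of at most `s` distinct elements of `A` -/
def IsPerfectBasis {G : Type} [AddCommGroup G] (s : ℕ) (A : Finset G) : Prop :=
  ∀ g : G, ∃! B : Finset G, B ⊆ A ∧ B.card ≤ s ∧ ∑ b ∈ B, b = g

section comb

variable {G : Type} [AddCommGroup G] [DecidableEq G] {s : ℕ} {A : Finset G}

lemma inj (h : IsPerfectBasis s A) {B C : Finset G} (hB : B ⊆ A) (hC : C ⊆ A) (h1 : B.card ≤ s)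
    (h2 : C.card ≤ s) (e : ∑ b ∈ B, b = ∑ b ∈ C, b) : B = C :=
  (h (∑ b ∈ C, b)).unique ⟨hB, h1, e⟩ ⟨hC, h2, rfl⟩

def Zr (A : Finset G) (j : G) (P : Finset G) : Prop :=
  ∃ Q, Q ⊆ A ∧ Disjoint Q P ∧ j ∉ Q ∧ ∑ b ∈ Q, b = ∑ b ∈ P, b

lemma exQ (h : IsPerfectBasis s A) {P : Finset G} (hP : P ⊆ A) (hc : P.card = s + 1) :
    ∃ Q, Q ⊆ A ∧ Q.card ≤ s ∧ Disjoint Q P ∧ ∑ b ∈ Q, b = ∑ b ∈ P, b := by
  obtain ⟨Q, ⟨h1, h2, h3⟩, -⟩ := h (∑ b ∈ P, b)
  refine ⟨Q, h1, h2, ?_, h3⟩
  rw [Finset.disjoint_left]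
  intro i hiQ hiP
  have e : ∑ b ∈ Q.erase i, b = ∑ b ∈ P.erase i, b := by
    rw [Finset.sum_erase_eq_sub hiQ, Finset.sum_erase_eq_sub hiP, h3]
  have := inj h ((erase_subset _ _).trans h1) ((erase_subset _ _).trans hP)
    ((card_erase_le).trans h2) (by rw [card_erase_of_mem hiP]; omega) e
  have h4 := congrArg Finset.card this
  rw [card_erase_of_mem hiP, card_erase_of_mem hiQ] at h4
  have := card_pos.2 ⟨i, hiQ⟩
  omega

lemma card_disj {Q R : Finset G} (h1 : Q ⊆ A) (h2 : R ⊆ A) (h : Disjoint Q R) :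
    Q.card + R.card ≤ A.card := by
  rw [← card_union_of_disjoint h]
  exact card_le_card (union_subset h1 h2)

lemma ruleR (h : IsPerfectBasis s A) (hA : A.card = 2 * s + 1) {R : Finset G} (hR : R ⊆ A)
    (hc : R.card = s + 2) {i j : G} (hi : i ∈ R) (hj : j ∈ R) (hij : i ≠ j)
    (h1 : Zr A i (R.erase i)) (h2 : Zr A j (R.erase j)) : False := by
  have key : ∀ i ∈ R, Zr A i (R.erase i) → ∃ Q, Q ⊆ A ∧ Disjoint Q R ∧ (insert i Q).card ≤ s ∧
      ∑ b ∈ insert i Q, b = ∑ b ∈ R, b := by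
    rintro i hi ⟨Q, q1, q2, q3, q4⟩
    have hd : Disjoint Q R := by
      rw [Finset.disjoint_left] at q2 ⊢
      intro x hx hxR
      exact q2 hx (mem_erase.2 ⟨fun e => q3 (e ▸ hx), hxR⟩)
    refine ⟨Q, q1, hd, ?_, ?_⟩
    · have := card_disj q1 hR hd
      rw [card_insert_of_notMem q3]; omega
    · rw [sum_insert q3, q4, Finset.sum_erase_eq_sub hi]; abel
  obtain ⟨Q, q1, q2, q3, q4⟩ := key i hi h1
  obtain ⟨Q', r1, r2, r3, r4⟩ := key j hj h2
  have := inj h (insert_subset (hR hi) q1) (insert_subset (hR hj) r1) q3 r3 (q4.trans r4.symm)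
  have h5 : i ∈ insert j Q' := this ▸ mem_insert_self i Q
  rcases mem_insert.1 h5 with e | e
  · exact hij e
  · exact Finset.disjoint_left.1 r2 e hi

lemma ruleI (h : IsPerfectBasis s A) {P T : Finset G} (hP : P ⊆ A) (hc : P.card = s + 1) {i : G}
    (hi : i ∈ P) (hT : T.Nonempty) (e : i + i = ∑ b ∈ T, b) : ∃ j ∈ T, Zr A j P := by
  obtain ⟨Q, q1, q2, q3, q4⟩ := exQ h hP hc
  by_contra hne
  have hTQ : T ⊆ Q := fun j hj => by
    by_contra hjQ
    exact hne ⟨j, hj, Q, q1, q3, hjQ, q4⟩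
  have hiQ : i ∉ Q \ T := fun hx => Finset.disjoint_left.1 q3 (mem_sdiff.1 hx).1 hi
  have e2 : ∑ b ∈ P.erase i, b = ∑ b ∈ insert i (Q \ T), b := by
    rw [sum_insert hiQ, Finset.sum_erase_eq_sub hi, ← q4, ← sum_sdiff hTQ, ← e]; abel
  have := inj h ((erase_subset _ _).trans hP) (insert_subset (hP hi) (sdiff_subset.trans q1))
    (by rw [card_erase_of_mem hi]; omega) (by
      rw [card_insert_of_notMem hiQ, card_sdiff_of_subset hTQ]
      have := card_pos.2 hT
      have := card_le_card hTQ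
      omega) e2
  exact notMem_erase i P (this ▸ mem_insert_self i _)

lemma ruleII (h : IsPerfectBasis s A) {P T : Finset G} (hP : P ⊆ A) (hc : P.card = s + 1) {i : G}
    (hiA : i ∈ A) (hi : i ∉ P) (hT : T ⊆ P) (h2 : 2 ≤ T.card) (e : i + i = ∑ b ∈ T, b) :
    Zr A i P := by
  obtain ⟨Q, q1, q2, q3, q4⟩ := exQ h hP hc
  refine ⟨Q, q1, q3, fun hiQ => ?_, q4⟩
  have hiP : i ∉ P \ T := fun hx => hi (mem_sdiff.1 hx).1
  have e2 : ∑ b ∈ Q.erase i, b = ∑ b ∈ insert i (P \ T), b := by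
    rw [sum_insert hiP, Finset.sum_erase_eq_sub hiQ, q4, ← sum_sdiff hT, ← e]; abel
  have := inj h ((erase_subset _ _).trans q1) (insert_subset hiA (sdiff_subset.trans hP))
    (card_erase_le.trans q2) (by
      rw [card_insert_of_notMem hiP, card_sdiff_of_subset hT]
      have := card_le_card hT
      omega) e2
  exact notMem_erase i Q (this ▸ mem_insert_self i _)

lemma full (h : IsPerfectBasis s A) {P : Finset G} (hP : P ⊆ A) (hc : P.card = s + 1)
    (hz : ∀ j ∈ A, j ∉ P → ¬ Zr A j P) : ∑ b ∈ P, b + ∑ b ∈ P, b = ∑ b ∈ A, b := by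
  obtain ⟨Q, q1, -, q3, q4⟩ := exQ h hP hc
  have : Q = A \ P := by
    ext j
    rw [mem_sdiff]
    refine ⟨fun hj => ⟨q1 hj, Finset.disjoint_left.1 q3 hj⟩, fun hj => ?_⟩
    by_contra hjQ
    exact hz j hj.1 hj.2 ⟨Q, q1, q3, hjQ, q4⟩
  rw [← sum_sdiff hP, ← this, q4]

lemma exch (hA : A.card = 2 * s + 1) {W : Finset G} (hW : W ⊆ A) (hc : W.card ≤ s)
    (hf : ∀ P, W ⊆ P → P ⊆ A → P.card = s + 1 → ∑ b ∈ P, b + ∑ b ∈ P, b = ∑ b ∈ A, b)
    {l m : G} (hl : l ∈ A \ W) (hm : m ∈ A \ W) : l + l = m + m := by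
  by_cases hlm : l = m
  · rw [hlm]
  rw [mem_sdiff] at hl hm
  obtain ⟨U, u1, u2, u3⟩ := exists_subsuperset_card_eq (s := W) (t := (A.erase l).erase m) (n := s)
    (fun x hx => mem_erase.2 ⟨fun e => hm.2 (e ▸ hx), mem_erase.2 ⟨fun e => hl.2 (e ▸ hx), hW hx⟩⟩)
    hc (by
      rw [card_erase_of_mem (mem_erase.2 ⟨Ne.symm hlm, hm.1⟩), card_erase_of_mem hl.1]
      have : 1 < A.card := one_lt_card.2 ⟨l, hl.1, m, hm.1, hlm⟩
      omega)
  have hUA : U ⊆ A := u2.trans ((erase_subset _ _).trans (erase_subset _ _))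
  have hlU : l ∉ U := fun hx => by simpa using u2 hx
  have hmU : m ∉ U := fun hx => by simpa using u2 hx
  have e1 := hf (insert l U) (u1.trans (subset_insert _ _)) (insert_subset hl.1 hUA)
    (by rw [card_insert_of_notMem hlU, u3])
  have e2 := hf (insert m U) (u1.trans (subset_insert _ _)) (insert_subset hm.1 hUA)
    (by rw [card_insert_of_notMem hmU, u3])
  rw [sum_insert hlU] at e1
  rw [sum_insert hmU, ← e1] at e2
  have : l + l + (∑ b ∈ U, b + ∑ b ∈ U, b) = m + m + (∑ b ∈ U, b + ∑ b ∈ U, b) := by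
    rw [add_add_add_comm, ← e2]; abel
  exact add_right_cancel this

lemma notMem_rep (h : IsPerfectBasis s A) (hs : 1 ≤ s) {T : Finset G} (hT : T ⊆ A)
    (hc : T.card ≤ s) {i : G} (hi : i ∈ A) (e : i + i = ∑ b ∈ T, b) : i ∉ T := by
  intro hiT
  have := inj h (B := {i}) (C := T.erase i) (by simpa using hi) ((erase_subset _ _).trans hT)
    (by simpa using hs) (card_erase_le.trans hc) (by
      rw [Finset.sum_erase_eq_sub hiT, ← e]; simp)
  exact notMem_erase i T (this ▸ mem_singleton_self i)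

lemma central (h : IsPerfectBasis s A) (hA : A.card = 2 * s + 1) (hs : 1 ≤ s) {k : G} (hk : k ∈ A)
    {O : Finset G} (hO : O ⊆ A) (hc : s + 1 ≤ O.card) (e : ∀ l ∈ O, l + l = k) : k + k = 0 := by
  obtain ⟨T, ⟨t1, t2, t3⟩, -⟩ := h (k + k)
  rcases T.eq_empty_or_nonempty with rfl | hT
  · simpa using t3.symm
  exfalso
  have hkT := notMem_rep h hs t1 t2 hk t3.symm
  obtain ⟨P, p1, p2, p3⟩ := exists_subsuperset_card_eq (s := {k}) (t := A \ T) (n := s + 1)
    (by simp [hk, hkT]) (by simp) (by rw [card_sdiff_of_subset t1]; omega)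
  have hPA : P ⊆ A := p2.trans sdiff_subset
  have hkP : k ∈ P := p1 (mem_singleton_self k)
  obtain ⟨j, hj, hz⟩ := ruleI h hPA p3 hkP hT t3.symm
  have hjP : j ∉ P := fun hx => (mem_sdiff.1 (p2 hx)).2 hj
  have hR : insert j P ⊆ A := insert_subset (t1 hj) hPA
  have hRc : (insert j P).card = s + 2 := by rw [card_insert_of_notMem hjP, p3]
  refine ruleR h hA hR hRc (mem_insert_self j P) (mem_insert_of_mem hkP)
    (fun e => hjP (e ▸ hkP)) (by rwa [erase_insert hjP]) ?_
  have hc2 : ((insert j P).erase k).card = s + 1 := by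
    rw [card_erase_of_mem (mem_insert_of_mem hkP), hRc]; rfl
  have hsub : (insert j P).erase k ⊆ A := (erase_subset _ _).trans hR
  have : ¬ Disjoint O ((insert j P).erase k) := fun hd => by
    have := card_disj hO hsub hd
    omega
  obtain ⟨l, hl, hl2⟩ := not_disjoint_iff.1 this
  obtain ⟨x, hx, hz2⟩ := ruleI h hsub hc2 hl2 (singleton_nonempty k) (by simpa using e l hl)
  rwa [mem_singleton.1 hx] at hz2

lemma ruleV (h : IsPerfectBasis s A) (hA : A.card = 2 * s + 1) (hs : 1 ≤ s) {T : Finset G}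
    (hT : T ⊆ A) (hc : T.card ≤ s) {l m : G} (hl : l ∈ A) (hm : m ∈ A) (hlm : l ≠ m)
    (e1 : l + l = ∑ b ∈ T, b) (e2 : m + m = ∑ b ∈ T, b) : T.card ≤ 1 := by
  by_contra h2
  have hlT := notMem_rep h hs hT hc hl e1
  have hmT := notMem_rep h hs hT hc hm e2
  obtain ⟨R, r1, r2, r3⟩ := exists_subsuperset_card_eq (s := insert l (insert m T)) (t := A)
    (n := s + 2) (insert_subset hl (insert_subset hm hT))
    ((card_insert_le _ _).trans (by have := card_insert_le m T; omega)) (by omega)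
  have hlR : l ∈ R := r1 (by simp)
  have hmR : m ∈ R := r1 (by simp)
  refine ruleR h hA r2 r3 hlR hmR hlm ?_ ?_
  · exact ruleII h ((erase_subset _ _).trans r2) (by rw [card_erase_of_mem hlR, r3]; rfl) hl
      (notMem_erase _ _) (fun x hx => mem_erase.2 ⟨fun e => hlT (e ▸ hx), r1 (by simp [hx])⟩)
      (by omega) e1
  · exact ruleII h ((erase_subset _ _).trans r2) (by rw [card_erase_of_mem hmR, r3]; rfl) hm
      (notMem_erase _ _) (fun x hx => mem_erase.2 ⟨fun e => hmT (e ▸ hx), r1 (by simp [hx])⟩)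
      (by omega) e2

lemma small_eq (h : IsPerfectBasis s A) (hA : A.card = 2 * s + 1) (hs : 2 ≤ s)
    (h0 : ∀ i ∈ A, i + i ≠ 0) {l m : G} (hl : l ∈ A) (hm : m ∈ A) (hl2 : l + l ∈ A)
    (hm2 : m + m ∈ A) : l + l = m + m := by
  by_contra hne
  obtain ⟨R, r1, r2, r3⟩ := exists_subsuperset_card_eq (s := {l, m, l + l, m + m}) (t := A)
    (n := s + 2) (by intro x hx; simp at hx; rcases hx with rfl | rfl | rfl | rfl <;> assumption)
    (card_le_four.trans (by omega)) (by omega)
  have key : ∀ x, x ∈ R → x + x ∈ R → Zr A (x + x) (R.erase (x + x)) := by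
    intro x hx hx2
    have hx0 : x ≠ x + x := fun e => h0 x (r2 hx) (by
      have : x = 0 := by simpa using e
      simp [this])
    obtain ⟨y, hy, hz⟩ := ruleI h ((erase_subset _ _).trans r2)
      (by rw [card_erase_of_mem hx2, r3]; rfl) (mem_erase.2 ⟨hx0, hx⟩)
      (singleton_nonempty (x + x)) (by simp)
    rwa [mem_singleton.1 hy] at hz
  exact ruleR h hA r2 r3 (r1 (by simp)) (r1 (by simp)) hne
    (key l (r1 (by simp)) (r1 (by simp))) (key m (r1 (by simp)) (r1 (by simp)))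

lemma big_full (h : IsPerfectBasis s A) (hA : A.card = 2 * s + 1) {T : Finset G} {i : G}
    (hiT : i ∉ T) (h2 : 2 ≤ T.card) (e : i + i = ∑ b ∈ T, b) (P : Finset G)
    (p1 : insert i T ⊆ P) (p2 : P ⊆ A) (p3 : P.card = s + 1) :
    ∑ b ∈ P, b + ∑ b ∈ P, b = ∑ b ∈ A, b := by
  refine full h p2 p3 fun j hj hjP hz => ?_
  have hiP : i ∈ P := p1 (mem_insert_self _ _)
  have hR : insert j P ⊆ A := insert_subset hj p2
  have hRc : (insert j P).card = s + 2 := by rw [card_insert_of_notMem hjP, p3]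
  refine ruleR h hA hR hRc (mem_insert_self j P) (mem_insert_of_mem hiP)
    (fun e => hjP (e ▸ hiP)) (by rwa [erase_insert hjP]) ?_
  exact ruleII h ((erase_subset _ _).trans hR)
    (by rw [card_erase_of_mem (mem_insert_of_mem hiP), hRc]; rfl) (p2 hiP) (notMem_erase _ _)
    (fun x hx => mem_erase.2 ⟨fun e => hiT (e ▸ hx), mem_insert_of_mem (p1 (mem_insert_of_mem hx))⟩)
    h2 e

lemma exists_invol (h : IsPerfectBasis s A) (hA : A.card = 2 * s + 1) (hs : 2 ≤ s)
    (h3 : ∀ x : G, x + x + x = 0 → x = 0) : ∃ w ∈ A, w + w = 0 := by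
  by_contra hne
  push Not at hne
  have hrep : ∀ i ∈ A, i + i ∉ A → ∃ T, T ⊆ A ∧ T.card ≤ s ∧ 2 ≤ T.card ∧ i + i = ∑ b ∈ T, b := by
    intro i hi hi2
    obtain ⟨T, ⟨t1, t2, t3⟩, -⟩ := h (i + i)
    refine ⟨T, t1, t2, ?_, t3.symm⟩
    by_contra hc
    have : T.card = 0 ∨ T.card = 1 := by omega
    rcases this with h0 | h0
    · rw [card_eq_zero.1 h0] at t3; exact hne i hi (by simpa using t3.symm)
    · obtain ⟨k, rfl⟩ := card_eq_one.1 h0
      rw [sum_singleton] at t3
      exact hi2 (t3 ▸ t1 (mem_singleton_self k))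
  have hbig : ∀ i ∈ A, i + i ∉ A → (i + i) + (i + i) + (i + i) = ∑ b ∈ A, b := by
    intro i hi hi2
    obtain ⟨T, t1, t2, t3, t4⟩ := hrep i hi hi2
    have hiT := notMem_rep h (by omega) t1 t2 hi t4
    have hW : insert i T ⊆ A := insert_subset hi t1
    have hWc : (insert i T).card = T.card + 1 := card_insert_of_notMem hiT
    rcases eq_or_lt_of_le t2 with e | e
    · have := big_full h hA hiT t3 t4 _ subset_rfl hW (by omega)
      rw [sum_insert hiT, ← t4] at this
      rw [← this]; abel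
    · exfalso
      have hex := fun l m hl hm => exch (l := l) (m := m) hA hW (by omega)
        (big_full h hA hiT t3 t4) hl hm
      have hOc : s + 1 ≤ (A \ insert i T).card := by rw [card_sdiff_of_subset hW]; omega
      obtain ⟨l, hl, m, hm, hlm⟩ := one_lt_card.1 (show 1 < (A \ insert i T).card by omega)
      by_cases hl2 : l + l ∈ A
      · exact hne _ hl2 (central h hA (by omega) hl2 sdiff_subset hOc fun x hx => hex x l hx hl)
      · obtain ⟨U, u1, u2, u3, u4⟩ := hrep l (mem_sdiff.1 hl).1 hl2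
        have := ruleV h hA (by omega) u1 u2 (mem_sdiff.1 hl).1 (mem_sdiff.1 hm).1 hlm u4
          ((hex m l hm hl).trans u4)
        omega
  have hone : (A.filter (fun i => i + i ∉ A)).card ≤ 1 := by
    rw [card_le_one]
    intro i hi j hj
    rw [mem_filter] at hi hj
    by_contra hij
    have e : i + i = j + j := by
      have := h3 (i + i - (j + j)) (by
        have := (hbig i hi.1 hi.2).trans (hbig j hj.1 hj.2).symm
        rw [← sub_eq_zero] at this
        rw [← this]; abel)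
      exact sub_eq_zero.1 this
    obtain ⟨U, u1, u2, u3, u4⟩ := hrep i hi.1 hi.2
    have := ruleV h hA (by omega) u1 u2 hi.1 hj.1 hij u4 (e.symm.trans u4)
    omega
  have hc := card_filter_add_card_filter_not (s := A) (fun i => i + i ∈ A)
  obtain ⟨l, hl⟩ := card_pos.1 (show 0 < (A.filter (fun i => i + i ∈ A)).card by omega)
  rw [mem_filter] at hl
  exact hne _ hl.2 (central h hA (by omega) hl.2 (filter_subset (fun i => i + i ∈ A) A) (by omega)
    fun x hx => small_eq h hA hs hne (mem_filter.1 hx).1 hl.1 (mem_filter.1 hx).2 hl.2)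

lemma doubles (h : IsPerfectBasis s A) (hA : A.card = 2 * s + 1) (hs : 1 ≤ s) {w : G} (hw : w ∈ A)
    (hw2 : w + w = 0) : ∀ g : G, g + g = 0 ∨ g + g = w := by
  have hex := fun l m hl hm => exch (W := {w}) (l := l) (m := m) hA (by simpa using hw)
    (by simpa using hs) (fun P p1 p2 p3 => full h p2 p3 (by
      rintro j hj hjP ⟨Q, q1, q2, q3, q4⟩
      have hwP : w ∈ P := p1 (mem_singleton_self w)
      have hwQ : w ∉ Q := fun hx => Finset.disjoint_left.1 q2 hx hwP
      have hd : Disjoint Q (insert j P) := by simp [q2, q3]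
      have hc := card_disj q1 (insert_subset hj p2) hd
      rw [card_insert_of_notMem hjP] at hc
      have := inj h (B := insert w Q) (C := P.erase w) (insert_subset hw q1)
        ((erase_subset _ _).trans p2) (by rw [card_insert_of_notMem hwQ]; omega)
        (by rw [card_erase_of_mem hwP]; omega) (by
          rw [sum_insert hwQ, Finset.sum_erase_eq_sub hwP, q4, eq_sub_iff_add_eq, add_right_comm,
            hw2, zero_add])
      exact notMem_erase w P (this ▸ mem_insert_self w Q))) hl hm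
  have h1 : ∀ l ∈ A, l + l = 0 ∨ l + l = w := by
    intro l hl
    by_cases hlw : l = w
    · left; rw [hlw, hw2]
    obtain ⟨T, ⟨t1, t2, t3⟩, -⟩ := h (l + l)
    have : T ⊆ {w} := by
      intro x hx
      by_contra hxw
      exact notMem_rep h hs t1 t2 (t1 hx) ((hex x l (mem_sdiff.2 ⟨t1 hx, hxw⟩)
        (mem_sdiff.2 ⟨hl, by simpa using hlw⟩)).trans t3.symm) hx
    rcases subset_singleton_iff.1 this with rfl | rfl
    · left; simpa using t3.symm
    · right; simpa using t3.symm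
  intro g
  obtain ⟨T, ⟨t1, -, rfl⟩, -⟩ := h g
  induction T using Finset.induction_on with
  | empty => simp
  | insert a T ha ih =>
    rw [sum_insert ha, add_add_add_comm]
    rcases h1 a (t1 (mem_insert_self _ _)) with e | e <;>
      rcases ih ((subset_insert _ _).trans t1) with e' | e' <;> simp [e, e', hw2]

end comb

lemma elem (K : Type) [AddCommGroup K] [Finite K] (h : ∀ x : K, 2 • x = 0) (m : ℕ)
    (hc : Nat.card K = 2 ^ m) : Nonempty (K ≃+ (Fin m → ZMod 2)) := by
  letI : Module (ZMod 2) K := AddCommGroup.zmodModule h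
  have h1 := Module.natCard_eq_pow_finrank (K := ZMod 2) (V := K)
  rw [hc, Nat.card_zmod] at h1
  have h2 : Module.finrank (ZMod 2) K = m := (Nat.pow_right_injective le_rfl h1).symm
  exact ⟨(Module.finBasisOfFinrankEq (ZMod 2) K h2).equivFun.toAddEquiv⟩

lemma classify (G : Type) [AddCommGroup G] [Finite G] (s : ℕ) (hs : 1 ≤ s)
    (hc : Nat.card G = 2 ^ (2 * s)) (w : G) (hw : w + w = 0) (h : ∀ g : G, g + g = 0 ∨ g + g = w) :
    Nonempty (G ≃+ (Fin (2 * s) → ZMod 2)) ∨
      Nonempty (G ≃+ (Fin (2 * s - 2) → ZMod 2) × ZMod 4) := by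
  by_cases h0 : ∀ g : G, g + g = 0
  · exact Or.inl (elem G (fun x => by rw [two_nsmul, h0]) _ hc)
  right
  push Not at h0
  obtain ⟨x, hx0⟩ := h0
  have hx : x + x = w := (h x).resolve_left hx0
  have hw0 : w ≠ 0 := hx ▸ hx0
  let H : AddSubgroup G := (nsmulAddMonoidHom 2 : G →+ G).ker
  have hH : ∀ g, g ∈ H ↔ g + g = 0 := fun g => by simp [H, two_nsmul]
  letI : Module (ZMod 2) H := AddCommGroup.zmodModule (fun y => by
    ext; simpa [two_nsmul] using (hH y).1 y.2)
  let w' : H := ⟨w, (hH w).2 hw⟩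
  obtain ⟨K, hK⟩ := Submodule.exists_isCompl (Submodule.span (ZMod 2) {w'})
  have hz : ∀ c : ZMod 2, c = 0 ∨ c = 1 := by decide
  let ψ : ZMod 4 →+ G := ZMod.lift 4 ⟨zmultiplesHom G x, by
    simp only [zmultiplesHom_apply, natCast_zsmul]
    rw [show 4 • x = (x + x) + (x + x) by abel, hx, hw]⟩
  have hψ : ∀ n : ℕ, ψ (n : ZMod 4) = n • x := fun n => by
    have := ZMod.lift_coe 4 ⟨zmultiplesHom G x, by
      simp only [zmultiplesHom_apply, natCast_zsmul]
      rw [show 4 • x = (x + x) + (x + x) by abel, hx, hw]⟩ (n : ℤ)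
    simpa using this
  let φ : K × ZMod 4 →+ G := (H.subtype.comp K.subtype.toAddMonoidHom).coprod ψ
  have hφ : ∀ (k : K) (n : ℕ), φ (k, (n : ZMod 4)) = ((k : H) : G) + n • x := fun k n => by
    simp [φ, hψ]
  have hdec : ∀ g : G, g + g = 0 → ∃ k : K, g = ((k : H) : G) ∨ g = ((k : H) : G) + w := by
    intro g hg
    have : (⟨g, (hH g).2 hg⟩ : H) ∈ Submodule.span (ZMod 2) {w'} ⊔ K := by
      rw [hK.sup_eq_top]; trivial
    obtain ⟨a, ha, b, hb, e⟩ := Submodule.mem_sup.1 this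
    obtain ⟨c, rfl⟩ := Submodule.mem_span_singleton.1 ha
    have e2 := congrArg Subtype.val e
    refine ⟨⟨b, hb⟩, ?_⟩
    rcases hz c with rfl | rfl
    · left; simpa using e2.symm
    · right; simp only [one_smul, AddSubgroup.coe_add] at e2; rw [← e2, add_comm]
  have hbij : Function.Bijective φ := by
    constructor
    · rw [injective_iff_map_eq_zero]
      rintro ⟨k, c⟩ e
      have hk2 : ((k : H) : G) + (k : H) = 0 := (hH _).1 (k : H).2
      have hc4 : ∀ c : ZMod 4, c = (0 : ℕ) ∨ c = (1 : ℕ) ∨ c = (2 : ℕ) ∨ c = (3 : ℕ) := by decide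
      rcases hc4 c with rfl | rfl | rfl | rfl <;> rw [hφ] at e
      · have : k = 0 := by ext; simpa using e
        simp [this]
      · exfalso; apply hx0
        have : x + x = (((k : H) : G) + 1 • x) + (((k : H) : G) + 1 • x) - (((k : H) : G) + (k : H)) := by
          abel
        rw [this, e, hk2]; simp
      · exfalso
        have e3 : (k : H) = w' := by
          ext
          rw [two_nsmul, hx] at e
          have : ((k : H) : G) = (((k : H) : G) + w) + w - (w + w) := by abel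
          rw [this, e, hw]; simp [w']
        have := hK.disjoint
        rw [Submodule.disjoint_def] at this
        have h5 := this w' (Submodule.mem_span_singleton_self _) (e3 ▸ k.2)
        exact hw0 (congrArg Subtype.val h5)
      · exfalso; apply hx0
        have : x + x = (((k : H) : G) + 3 • x) + (((k : H) : G) + 3 • x) - (((k : H) : G) + (k : H))
          - ((x + x) + (x + x)) := by abel
        rw [this, e, hk2, hx, hw]; simp
    · intro g
      rcases h g with hg | hg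
      · obtain ⟨k, e | e⟩ := hdec g hg
        · exact ⟨(k, (0 : ℕ)), by rw [hφ, e]; simp⟩
        · exact ⟨(k, (2 : ℕ)), by rw [hφ, e, two_nsmul, hx]⟩
      · obtain ⟨k, e | e⟩ := hdec (g - x) (by
          rw [show g - x + (g - x) = (g + g) - (x + x) by abel, hg, hx, sub_self])
        · exact ⟨(k, (1 : ℕ)), by rw [hφ, ← e]; simp⟩
        · exact ⟨(k, (3 : ℕ)), by
            rw [hφ, show 3 • x = (x + x) + x by abel, hx, ← add_assoc, ← e]; simp⟩
  have hcard : Nat.card K = 2 ^ (2 * s - 2) := by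
    have := Nat.card_eq_of_bijective φ hbij
    rw [Nat.card_prod, Nat.card_zmod, hc, show 2 * s = (2 * s - 2) + 2 by omega, pow_add] at this
    omega
  obtain ⟨e⟩ := elem K (fun y => by
    ext; simpa [two_nsmul] using (hH _).1 (y : H).2) _ hcard
  exact ⟨(AddEquiv.ofBijective φ hbij).symm.trans (e.prodCongr (AddEquiv.refl _))⟩

theorem result (s : ℕ) (hs : 1 ≤ s) (G : Type) [AddCommGroup G] [Finite G]
    (hc : Nat.card G = 2 ^ (2 * s)) (A : Finset G) (hA : A.card = 2 * s + 1)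
    (h : IsPerfectBasis s A) :
    Nonempty (G ≃+ (Fin (2 * s) → ZMod 2)) ∨
      Nonempty (G ≃+ (Fin (2 * s - 2) → ZMod 2) × ZMod 4) := by
  classical
  have : ∃ w ∈ A, w + w = 0 := by
    rcases eq_or_lt_of_le hs with rfl | hs2
    · obtain ⟨x, hx⟩ := exists_prime_addOrderOf_dvd_card' (G := G) 2 (by rw [hc]; norm_num)
      obtain ⟨T, ⟨t1, t2, t3⟩, -⟩ := h x
      have hx2 : x + x = 0 := by rw [← two_nsmul, ← hx, addOrderOf_nsmul_eq_zero]
      rcases T.eq_empty_or_nonempty with rfl | hT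
      · rw [← t3] at hx; simp at hx
      · obtain ⟨k, rfl⟩ := card_eq_one.1 (le_antisymm t2 (card_pos.2 hT))
        rw [sum_singleton] at t3
        exact ⟨x, t3 ▸ t1 (mem_singleton_self k), hx2⟩
    · refine exists_invol h hA hs2 fun x hx => ?_
      have h1 : addOrderOf x ∣ 3 := addOrderOf_dvd_of_nsmul_eq_zero (by rw [← hx]; abel)
      have h2 : addOrderOf x ∣ 2 ^ (2 * s) := hc ▸ addOrderOf_dvd_natCard x
      have h3 : Nat.Coprime 3 (2 ^ (2 * s)) := Nat.Coprime.pow_right _ (by norm_num)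
      exact AddMonoid.addOrderOf_eq_one_iff.1 (Nat.eq_one_of_dvd_coprimes h3 h1 h2)
  obtain ⟨w, hw, hw2⟩ := this
  exact classify G s hs hc w hw2 (doubles h hA hs hw hw2)

end Pool.Agent.Results.MP_c73f8e_nt.Classify
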